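import Pool.Agent.Helper29.H2.St2

/-!
# Project H2, module V1: volumes of the cells, upper bound
-/

set_option autoImplicit false

noncomputable section

namespace Pool.Agent.Helper29.H2

open Finset MeasureTheory
open Pool.Agent.Helper27.BG

section V1

variable {κ : Type} [Fintype κ]

private theorem meas_V1 (N : ℕ) (i : κ → ℕ) (t : ℕ) : MeasurableSet (c1 N i t) := by
  have h1 : c1 N i t = (⋂ h : κ, ({u : κ → ℝ | 0 ≤ u h} ∩ {u : κ → ℝ | ⌊(N : ℝ) * u h⌋₊ = i h})) ∩
      {u : κ → ℝ | ⌊(N : ℝ) * ∑ h, u h⌋₊ = t} := by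
    ext u
    simp only [c1, Set.mem_setOf_eq, Set.mem_inter_iff, Set.mem_iInter]
  rw [h1]
  refine MeasurableSet.inter (MeasurableSet.iInter fun h => MeasurableSet.inter ?_ ?_) ?_
  · exact measurableSet_le measurable_const (measurable_pi_apply h)
  · exact (Nat.measurable_floor.comp ((measurable_pi_apply h).const_mul _))
      (measurableSet_singleton (i h))
  · exact (Nat.measurable_floor.comp
      ((Finset.measurable_sum _ fun h _ => measurable_pi_apply h).const_mul (N : ℝ)))
      (measurableSet_singleton t)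

private def box_V1 (N : ℕ) (i : κ → ℕ) : Set (κ → ℝ) :=
  Set.pi Set.univ fun h => Set.Ico ((i h : ℝ) / N) (((i h : ℝ) + 1) / N)

private theorem sub_box_V1 {N : ℕ} (hN : 0 < N) (i : κ → ℕ) (t : ℕ) : c1 N i t ⊆ box_V1 N i := by
  have hN' : (0 : ℝ) < N := by exact_mod_cast hN
  rintro u ⟨hu, -⟩ h -
  obtain ⟨h0, h1⟩ := hu h
  have h2 : 0 ≤ (N : ℝ) * u h := by positivity
  have h3 := (Nat.floor_eq_iff h2).1 h1
  constructor
  · rw [div_le_iff₀ hN', mul_comm]; exact h3.1
  · rw [lt_div_iff₀ hN', mul_comm]; exact h3.2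

private theorem vol_box_V1 (N : ℕ) (i : κ → ℕ) :
    volume (box_V1 N i) = ENNReal.ofReal ((1 / (N : ℝ)) ^ Fintype.card κ) := by
  rw [box_V1, Real.volume_pi_Ico]
  have h1 : ∀ h : κ, ((i h : ℝ) + 1) / N - (i h : ℝ) / N = 1 / N := fun h => by ring
  simp only [h1]
  rw [Finset.prod_const, Finset.card_univ, ENNReal.ofReal_pow (by positivity)]

private theorem vol_ne_top_V1 {N : ℕ} (hN : 0 < N) (i : κ → ℕ) (t : ℕ) :
    volume (c1 N i t) ≠ ⊤ := by
  have h1 := measure_mono (μ := volume) (sub_box_V1 hN i t)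
  rw [vol_box_V1] at h1
  exact (h1.trans_lt ENNReal.ofReal_lt_top).ne

end V1

theorem hV1 : StV1 := by
  intro κ _ _ N hN
  have hN' : (0 : ℝ) < N := by exact_mod_cast hN
  refine ⟨fun i T => ?_, ?_⟩
  · rw [← ENNReal.toReal_sum fun t _ => vol_ne_top_V1 hN i t, ← measure_biUnion_finset]
    · refine ENNReal.toReal_le_of_le_ofReal (by positivity) ?_
      rw [← vol_box_V1 N i]
      refine measure_mono ?_
      exact Set.iUnion₂_subset fun t _ => sub_box_V1 hN i t
    · intro s _ t _ hst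
      refine Set.disjoint_left.2 fun u hs ht => hst ?_
      rw [← hs.2, ← ht.2]
    · intro t _
      exact meas_V1 N i t
  · have hK : (0 : ℝ) < (Fintype.card κ : ℝ) + 1 := by positivity
    set ε : ℝ := 1 / (N * ((Fintype.card κ : ℝ) + 1)) with hε
    have hε0 : 0 < ε := by positivity
    have hsub : (Set.pi Set.univ fun _ : κ => Set.Ioo (0 : ℝ) ε) ⊆ c1 N (fun _ : κ => 0) 0 := by
      intro u hu
      have hu' : ∀ h, 0 < u h ∧ u h < ε := fun h => hu h (Set.mem_univ h)
      have h1 : (N : ℝ) * ε ≤ 1 := by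
        rw [hε]
        field_simp
        linarith [Nat.cast_nonneg (α := ℝ) (Fintype.card κ)]
      refine ⟨fun h => ⟨(hu' h).1.le, ?_⟩, ?_⟩
      · rw [Nat.floor_eq_zero]
        exact (mul_lt_mul_of_pos_left (hu' h).2 hN').trans_le h1
      · rw [Nat.floor_eq_zero]
        have h2 : ∑ h, u h ≤ Fintype.card κ * ε := by
          calc ∑ h, u h ≤ ∑ _h : κ, ε := Finset.sum_le_sum fun h _ => (hu' h).2.le
            _ = Fintype.card κ * ε := by simp
        calc (N : ℝ) * ∑ h, u h ≤ N * (Fintype.card κ * ε) := by gcongr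
          _ = Fintype.card κ / ((Fintype.card κ : ℝ) + 1) := by
            rw [hε]; field_simp
          _ < 1 := by rw [div_lt_one hK]; linarith
    refine ENNReal.toReal_pos ?_ (vol_ne_top_V1 hN _ _)
    have h2 := measure_mono (μ := volume) hsub
    rw [Real.volume_pi_Ioo] at h2
    have h3 : 0 < ∏ _i : κ, ENNReal.ofReal (ε - 0) := by
      rw [Finset.prod_const]
      exact ENNReal.pow_pos (ENNReal.ofReal_pos.2 (by linarith)) _
    exact (h3.trans_le h2).ne'

end Pool.Agent.Helper29.H2
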